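import Pool.Agent.Q297.PrePath

/-!
Every continuous process whose law is absolutely continuous with respect to Wiener measure becomes
a Brownian motion after a suitable random piece is put in front of it.
-/

open MeasureTheory ProbabilityTheory Set
open scoped ENNReal NNReal
open Q297.PathC Q297.Prepend

namespace Pool.Agent.Results.MP_a9102c_pr.Prepending

/-- the process obtained by putting the piece `y` on `[0, τ]` in front of the path `x` -/
noncomputable def prepend (τ : ℝ≥0) (y x : C(ℝ≥0, ℝ)) (t : ℝ≥0) : ℝ :=
  if t ≤ τ then y t else y τ + x (t - τ)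

/-- **Prepending a random piece.**  `C(ℝ≥0, ℝ)` carries the compact-open topology
(locally uniform convergence) and its Borel sigma-algebra. -/
theorem result
    {Ω₀ : Type*} [MeasurableSpace Ω₀] (P₀ : Measure Ω₀) [IsProbabilityMeasure P₀]
    (X₀ : Ω₀ → C(ℝ≥0, ℝ)) (hX₀ : Measurable X₀)
    {Ω₁ : Type*} [MeasurableSpace Ω₁] (P₁ : Measure Ω₁)
    (B : Ω₁ → C(ℝ≥0, ℝ)) (hB : Measurable B) (hBM : IsBrownianReal (fun t ω => B ω t) P₁)
    (hac : P₀.map X₀ ≪ P₁.map B) :
    ∃ (Ω : Type) (_ : MeasurableSpace Ω) (P : Measure Ω) (_ : IsProbabilityMeasure P)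
      (X Y : Ω → C(ℝ≥0, ℝ)) (T : Ω → ℝ≥0),
      Measurable X ∧ Measurable Y ∧ Measurable T ∧ P.map X = P₀.map X₀ ∧ (∀ ω, Y ω 0 = 0) ∧
      IsBrownianReal (fun t ω => prepend (T ω) (Y ω) (X ω) t) P := by
  classical
  have hP₁ : IsProbabilityMeasure P₁ := hBM.isGaussianProcess.isProbabilityMeasure
  set W : Measure Path := P₁.map B with hWdef
  set ν : Measure Path := P₀.map X₀ with hνdef
  -- the coordinate process under `W` is Brownian
  have hW : IsBrownianReal (fun (t : ℝ≥0) (x : Path) => x t) W := by
    have mI : ∀ I : Finset ℝ≥0, Measurable (fun (x : Path) => I.restrict (fun t => x t)) :=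
      fun I => measurable_pi_lambda _ fun t => measurable_eval (t : ℝ≥0)
    refine ⟨⟨fun I => ⟨(mI I).aemeasurable, ?_⟩⟩, Filter.Eventually.of_forall fun x => x.continuous⟩
    rw [hWdef, Measure.map_map (mI I) hB]
    exact (hBM.hasLaw I).map_eq
  have hWp : IsProbabilityMeasure W := isProb hW
  have hνp : IsProbabilityMeasure ν := Measure.isProbabilityMeasure_map hX₀.aemeasurable
  obtain ⟨κ, hκ1, hκ2⟩ := Q297.Fill.filling W ν (by rw [measure_univ, measure_univ])
    (fun n => shift (n : ℝ≥0)) (fun n => measurable_shift _) (fun A hA hpos => by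
      refine visits hW A hA ?_
      rw [pos_iff_ne_zero]
      intro h0
      exact absurd (hac h0) hpos.ne')
  -- the probability space
  let inc : ℕ → Path → Path × ℕ := fun n x => (x, n)
  have hinc : ∀ n, Measurable (inc n) := fun n => measurable_id.prodMk measurable_const
  set P : Measure (Path × ℕ) := Measure.sum (fun n => (κ n).map (inc n)) with hPdef
  have hmapP : ∀ {β : Type} [MeasurableSpace β] (F : Path × ℕ → β), Measurable F →
      P.map F = Measure.sum (fun n => (κ n).map (fun x => F (x, n))) := by
    intro β _ F hF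
    rw [hPdef, Measure.map_sum hF.aemeasurable]
    congr 1
    funext n
    rw [Measure.map_map hF (hinc n)]
    rfl
  have hfst : P.map Prod.fst = W := by
    rw [hmapP _ measurable_fst]
    simp only [Measure.map_id']
    exact hκ1
  have hPp : IsProbabilityMeasure P := by
    constructor
    have : P.map Prod.fst univ = 1 := by rw [hfst]; exact measure_univ
    rw [Measure.map_apply measurable_fst MeasurableSet.univ, preimage_univ] at this
    exact this
  have hXm : Measurable (fun p : Path × ℕ => shift (p.2 : ℝ≥0) p.1) := by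
    refine measurable_of_eval fun t => ?_
    refine measurable_from_prod_countable_left fun n => ?_
    exact (measurable_eval t).comp (measurable_shift (n : ℝ≥0))
  refine ⟨Path × ℕ, inferInstance, P, hPp, fun p => shift (p.2 : ℝ≥0) p.1, fun p => shift 0 p.1,
    fun p => (p.2 : ℝ≥0), hXm, (measurable_shift 0).comp measurable_fst, ?_, ?_, ?_, ?_⟩
  · exact (measurable_of_countable (fun n : ℕ => (n : ℝ≥0))).comp measurable_snd
  · rw [hmapP _ hXm]
    exact hκ2
  · intro p
    simp
  · have hZ : ∀ (t : ℝ≥0) (p : Path × ℕ),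
        prepend (p.2 : ℝ≥0) (shift 0 p.1) (shift (p.2 : ℝ≥0) p.1) t = shift 0 p.1 t := by
      intro t p
      unfold prepend
      split_ifs with h
      · rfl
      · push Not at h
        simp only [shift_apply, zero_add]
        rw [add_tsub_cancel_of_le h.le]
        ring
    have hfun : (fun (t : ℝ≥0) (p : Path × ℕ) =>
        prepend (p.2 : ℝ≥0) (shift 0 p.1) (shift (p.2 : ℝ≥0) p.1) t) =
        fun (t : ℝ≥0) (p : Path × ℕ) => (shift 0 p.1) t := by
      funext t p
      exact hZ t p
    simp only
    rw [hfun]
    have h0 := hW.shift 0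
    refine ⟨⟨fun I => ⟨?_, ?_⟩⟩, Filter.Eventually.of_forall fun p => (shift 0 p.1).continuous⟩
    · refine Measurable.aemeasurable (measurable_pi_lambda _ fun t => ?_)
      exact (measurable_eval (t : ℝ≥0)).comp ((measurable_shift 0).comp measurable_fst)
    · have m1 : Measurable (fun (x : Path) => I.restrict (fun t => shift 0 x t)) :=
        measurable_pi_lambda _ fun t => (measurable_eval (t : ℝ≥0)).comp (measurable_shift 0)
      have e : (fun (p : Path × ℕ) => I.restrict (fun t => shift 0 p.1 t)) =
          (fun (x : Path) => I.restrict (fun t => shift 0 x t)) ∘ Prod.fst := rfl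
      rw [e, ← Measure.map_map m1 measurable_fst, hfst]
      exact (h0.hasLaw I).map_eq

end Pool.Agent.Results.MP_a9102c_pr.Prepending
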